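import Pool.Agent.Y564.PPC.Main

/-!
# Countable obstructions to pp-constructibility from the two-element path
-/

set_option autoImplicit false

namespace Pool.Agent.Results.MP_8f9fef_lc.CountableObstructions

open Pool.Agent.Y564.PPC

/-- There is a countable family `C 0, C 1, …` of finite structures (finite domain and finite
signature) such that every structure `B` with a finite nonempty domain (and with a finite or
infinite relational signature) satisfies: `B` has no pp-construction from the two-element path `P₂`
if and only if some `C i` has a pp-construction from `B`. -/
theorem result : ∃ C : ℕ → Str,
    (∀ i, Finite (C i).Sym ∧ Finite (C i).Dom ∧ Nonempty (C i).Dom) ∧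
    ∀ B : Str, Finite B.Dom → Nonempty B.Dom →
      (¬ PPConstructs P2 B ↔ ∃ i, PPConstructs B (C i)) :=
  main

end Pool.Agent.Results.MP_8f9fef_lc.CountableObstructions
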